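import Pool.Agent.H51.EHD.RW
import Pool.Agent.H94.EQ.L3
import Pool.Agent.H92.EM.TA

/-!
Board emd_modules (MP_75a732_an), row MRH: the Hessians on the space of the `(t,x)`.
-/

set_option autoImplicit false

namespace Pool.Agent.H56.EM

open scoped BigOperators ComplexConjugate ContDiff ComplexOrder
open MeasureTheory Pool.Agent.H92.EQ Pool.Agent.H92.EM

noncomputable section

/-! ### Quadratic forms -/

section gen

variable {ι κ : Type} [Fintype ι] [DecidableEq ι] [Fintype κ] [DecidableEq κ]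

/-- The form of a matrix. -/
def qf (H : Matrix ι ι ℂ) (v : ι → ℂ) : ℂ := ∑ a, ∑ b, v a * H a b * conj (v b)

/-- `|Y ∧ a|² / |Y|⁴`. -/
def D2 (Y a : ι → ℂ) : ℝ := nsq a / nsq Y - ‖∑ i, a i * conj (Y i)‖ ^ 2 / nsq Y ^ 2

omit [DecidableEq ι] in
theorem nsq_nn (z : ι → ℂ) : 0 ≤ nsq z := by
  unfold nsq; positivity

omit [DecidableEq ι] in
theorem nsq_po {z : ι → ℂ} (hz : z ≠ 0) : 0 < nsq z := by
  unfold nsq
  obtain ⟨i, hi⟩ := Function.ne_iff.1 hz
  refine Finset.sum_pos' (fun j _ => by positivity) ⟨i, Finset.mem_univ i, ?_⟩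
  have : 0 < ‖z i‖ := norm_pos_iff.2 hi
  positivity

omit [DecidableEq ι] in
theorem nsq_sub (a Y : ι → ℂ) (c : ℂ) : nsq (fun i => a i - c * Y i) =
    nsq a - 2 * (conj c * ∑ i, a i * conj (Y i)).re + ‖c‖ ^ 2 * nsq Y := by
  unfold nsq
  rw [Finset.mul_sum, Finset.mul_sum, Complex.re_sum, Finset.mul_sum, ← Finset.sum_sub_distrib,
    ← Finset.sum_add_distrib]
  refine Finset.sum_congr rfl fun i _ => ?_
  rw [Complex.sq_norm, Complex.sq_norm, Complex.sq_norm, Complex.sq_norm, Complex.normSq_sub,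
    Complex.normSq_mul]
  have : (a i * conj (c * Y i)) = conj c * (a i * conj (Y i)) := by
    rw [map_mul]; ring
  rw [this]
  ring

omit [DecidableEq ι] in
theorem D2_le {Y : ι → ℂ} (hY : Y ≠ 0) (a : ι → ℂ) (c : ℂ) :
    D2 Y a ≤ nsq (fun i => a i - c * Y i) / nsq Y := by
  have hn := nsq_po hY
  set s := ∑ i, a i * conj (Y i) with hs
  have h1 : (conj c * s).re ≤ ‖c‖ * ‖s‖ := by
    refine (Complex.re_le_norm _).trans ?_
    rw [norm_mul, Complex.norm_conj]
  have h2 : D2 Y a = (nsq a - ‖s‖ ^ 2 / nsq Y) / nsq Y := by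
    unfold D2
    rw [← hs]
    field_simp
  rw [h2, nsq_sub, ← hs]
  refine div_le_div_of_nonneg_right ?_ hn.le
  have h3 : ‖s‖ ^ 2 / nsq Y - 2 * (‖c‖ * ‖s‖) + ‖c‖ ^ 2 * nsq Y =
      (‖s‖ - ‖c‖ * nsq Y) ^ 2 / nsq Y := by
    field_simp
    ring
  have h4 : 0 ≤ (‖s‖ - ‖c‖ * nsq Y) ^ 2 / nsq Y := by positivity
  linarith

omit [DecidableEq ι] in
theorem D2_eq {Y : ι → ℂ} (hY : Y ≠ 0) (a : ι → ℂ) :
    ∃ c : ℂ, nsq (fun i => a i - c * Y i) = D2 Y a * nsq Y := by
  have hn := nsq_po hY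
  refine ⟨(∑ i, a i * conj (Y i)) / (nsq Y : ℂ), ?_⟩
  rw [nsq_sub]
  set s := ∑ i, a i * conj (Y i) with hs
  have h1 : conj (s / (nsq Y : ℂ)) * s = ((‖s‖ ^ 2 / nsq Y : ℝ) : ℂ) := by
    rw [map_div₀, Complex.conj_ofReal, div_mul_eq_mul_div, mul_comm (conj s) s,
      Complex.mul_conj, Complex.normSq_eq_norm_sq]
    push_cast
    rfl
  have h2 : ‖s / (nsq Y : ℂ)‖ = ‖s‖ / nsq Y := by
    rw [norm_div, Complex.norm_real, Real.norm_of_nonneg hn.le]
  rw [h1, h2, Complex.ofReal_re]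
  unfold D2
  rw [← hs]
  field_simp
  ring

omit [DecidableEq ι] in
theorem nsq_add_le (a b : ι → ℂ) : nsq (fun i => a i + b i) ≤ 2 * nsq a + 2 * nsq b := by
  unfold nsq
  rw [Finset.mul_sum, Finset.mul_sum, ← Finset.sum_add_distrib]
  refine Finset.sum_le_sum fun i _ => ?_
  have h := norm_add_le (a i) (b i)
  have h0 := norm_nonneg (a i + b i)
  nlinarith [sq_nonneg (‖a i‖ - ‖b i‖)]

omit [DecidableEq ι] in
theorem nsq_smul' (c : ℂ) (a : ι → ℂ) : nsq (fun i => c * a i) = ‖c‖ ^ 2 * nsq a := by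
  unfold nsq
  rw [Finset.mul_sum]
  refine Finset.sum_congr rfl fun i _ => ?_
  rw [norm_mul, mul_pow]

omit [DecidableEq ι] in
theorem D2_add {Y : ι → ℂ} (hY : Y ≠ 0) (a b : ι → ℂ) :
    D2 Y (fun i => a i + b i) ≤ 2 * D2 Y a + 2 * D2 Y b := by
  have hn := nsq_po hY
  obtain ⟨c, hc⟩ := D2_eq hY a
  obtain ⟨c', hc'⟩ := D2_eq hY b
  refine (D2_le hY _ (c + c')).trans ?_
  rw [div_le_iff₀ hn]
  have h1 := nsq_add_le (fun i => a i - c * Y i) (fun i => b i - c' * Y i)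
  have h2 : (fun i => (a i + b i) - (c + c') * Y i) =
      fun i => (a i - c * Y i) + (b i - c' * Y i) := by
    funext i; ring
  rw [h2]
  rw [hc, hc'] at h1
  linarith

omit [DecidableEq ι] in
theorem D2_smul (Y a : ι → ℂ) (c : ℂ) : D2 Y (fun i => c * a i) = ‖c‖ ^ 2 * D2 Y a := by
  unfold D2
  rw [nsq_smul']
  have : ∑ i, c * a i * conj (Y i) = c * ∑ i, a i * conj (Y i) := by
    rw [Finset.mul_sum]
    exact Finset.sum_congr rfl fun i _ => by ring
  rw [this, norm_mul, mul_pow]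
  ring

omit [DecidableEq ι] in
theorem D2_nn {Y : ι → ℂ} (hY : Y ≠ 0) (a : ι → ℂ) : 0 ≤ D2 Y a := by
  have hn := nsq_po hY
  obtain ⟨c, hc⟩ := D2_eq hY a
  have h := nsq_nn (fun i => a i - c * Y i)
  rw [hc] at h
  exact nonneg_of_mul_nonneg_left h hn

theorem psd_of {M : Matrix ι ι ℂ} (h : M.IsHermitian) (hq : ∀ v, 0 ≤ qf M v) :
    M.PosSemidef := by
  refine Matrix.PosSemidef.of_dotProduct_mulVec_nonneg h fun x => ?_
  have e : star x ⬝ᵥ M.mulVec x = qf M (fun a => conj (x a)) := by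
    unfold qf dotProduct Matrix.mulVec dotProduct
    refine Finset.sum_congr rfl fun a _ => ?_
    rw [Finset.mul_sum]
    refine Finset.sum_congr rfl fun b _ => ?_
    rw [Complex.conj_conj, Pi.star_apply, Complex.star_def]
    ring
  rw [e]
  exact hq _

omit [DecidableEq ι] in
theorem qf_sub (M M' : Matrix ι ι ℂ) (c : ℂ) (v : ι → ℂ) :
    qf (c • M - M') v = c * qf M v - qf M' v := by
  unfold qf
  rw [Finset.mul_sum, ← Finset.sum_sub_distrib]
  refine Finset.sum_congr rfl fun a _ => ?_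
  rw [Finset.mul_sum, ← Finset.sum_sub_distrib]
  refine Finset.sum_congr rfl fun b _ => ?_
  rw [Matrix.sub_apply, Matrix.smul_apply, smul_eq_mul]
  ring

/-! ### Composition with polynomial maps -/

theorem qf_comp (h4 : T_W4) (G : ι → MvPolynomial κ ℂ) (f : (ι → ℂ) → ℂ) (z : κ → ℂ)
    (hf : ContDiffAt ℝ 2 f (ev G z)) (v : κ → ℂ) :
    qf (hess (fun w => f (ev G w)) z) v = qf (hess f (ev G z)) ((jac G z).mulVec v) := by
  have h := h4 ι κ G f z hf
  unfold qf
  have e1 : ∀ a b, v a * hess (fun w => f (ev G w)) z a b * conj (v b) =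
      ∑ i, ∑ j, (jac G z i a * v a) * hess f (ev G z) i j * conj (jac G z j b * v b) := by
    intro a b
    rw [h a b, Finset.mul_sum, Finset.sum_mul]
    refine Finset.sum_congr rfl fun i _ => ?_
    rw [Finset.mul_sum, Finset.sum_mul]
    refine Finset.sum_congr rfl fun j _ => ?_
    rw [map_mul]
    ring
  have e2 : ∀ i j, (jac G z).mulVec v i * hess f (ev G z) i j * conj ((jac G z).mulVec v j) =
      ∑ a, ∑ b, (jac G z i a * v a) * hess f (ev G z) i j * conj (jac G z j b * v b) := by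
    intro i j
    unfold Matrix.mulVec dotProduct
    rw [map_sum, Finset.sum_mul, Finset.sum_mul]
    refine Finset.sum_congr rfl fun a _ => ?_
    rw [Finset.mul_sum]
  simp_rw [e1, e2]
  calc ∑ a, ∑ b, ∑ i, ∑ j, (jac G z i a * v a) * hess f (ev G z) i j * conj (jac G z j b * v b)
      = ∑ a, ∑ i, ∑ b, ∑ j,
          (jac G z i a * v a) * hess f (ev G z) i j * conj (jac G z j b * v b) := by
        exact Finset.sum_congr rfl fun a _ => Finset.sum_comm
    _ = ∑ i, ∑ a, ∑ b, ∑ j,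
          (jac G z i a * v a) * hess f (ev G z) i j * conj (jac G z j b * v b) :=
        Finset.sum_comm
    _ = ∑ i, ∑ a, ∑ j, ∑ b,
          (jac G z i a * v a) * hess f (ev G z) i j * conj (jac G z j b * v b) := by
        exact Finset.sum_congr rfl fun i _ => Finset.sum_congr rfl fun a _ => Finset.sum_comm
    _ = ∑ i, ∑ j, ∑ a, ∑ b,
          (jac G z i a * v a) * hess f (ev G z) i j * conj (jac G z j b * v b) := by
        exact Finset.sum_congr rfl fun i _ => Finset.sum_comm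

theorem herm_comp (h4 : T_W4) (G : ι → MvPolynomial κ ℂ) (f : (ι → ℂ) → ℂ) (z : κ → ℂ)
    (hf : ContDiffAt ℝ 2 f (ev G z)) (hH : (hess f (ev G z)).IsHermitian) :
    (hess (fun w => f (ev G w)) z).IsHermitian := by
  refine Matrix.IsHermitian.ext fun a b => ?_
  rw [h4 ι κ G f z hf b a, h4 ι κ G f z hf a b, star_sum]
  calc ∑ i, star (∑ j, jac G z i b * conj (jac G z j a) * hess f (ev G z) i j)
      = ∑ i, ∑ j, jac G z j a * conj (jac G z i b) * hess f (ev G z) j i := by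
        refine Finset.sum_congr rfl fun i _ => ?_
        rw [star_sum]
        refine Finset.sum_congr rfl fun j _ => ?_
        rw [star_mul', star_mul', hH.apply j i, Complex.star_def, Complex.conj_conj]
        ring
    _ = _ := Finset.sum_comm

theorem ell_cd (h9 : T_W9) {z : ι → ℂ} (hz : z ≠ 0) :
    ContDiffAt ℝ 2 (fun w : ι → ℂ => (ell w : ℂ)) z :=
  Pool.Agent.H94.EQ.cdAt_of_on (h9 ι).1 hz

theorem qf_ell (h9 : T_W9) {Y : ι → ℂ} (hY : Y ≠ 0) (a : ι → ℂ) :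
    qf (hess (fun w : ι → ℂ => (ell w : ℂ)) Y) a = (((1 / 2) * D2 Y a : ℝ) : ℂ) :=
  ((h9 ι).2 Y hY).2.2.2.2 a

theorem herm_ell (h9 : T_W9) {Y : ι → ℂ} (hY : Y ≠ 0) :
    (hess (fun w : ι → ℂ => (ell w : ℂ)) Y).IsHermitian :=
  ((h9 ι).2 Y hY).2.2.2.1.isHermitian

end gen

/-! ### The block matrices -/

section blk

variable {k : ℕ}

/-- The block matrix. -/
def BM (c : ℂ) (H : Matrix (Fin (k + 1)) (Fin (k + 1)) ℂ) :
    Matrix (Fin (k + 1 + 1)) (Fin (k + 1 + 1)) ℂ :=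
  Matrix.of (fun a b : Fin (k + 1 + 1) => Fin.cases (motive := fun _ => ℂ)
    (Fin.cases (motive := fun _ => ℂ) c (fun _ => 0) b)
    (fun a' => Fin.cases (motive := fun _ => ℂ) 0 (fun b' => H a' b') b) a)

theorem qf_BM (c : ℂ) (H : Matrix (Fin (k + 1)) (Fin (k + 1)) ℂ) (v : Fin (k + 1 + 1) → ℂ) :
    qf (BM c H) v = v 0 * c * conj (v 0) + qf H (tl v) := by
  unfold qf
  rw [Fin.sum_univ_succ, Fin.sum_univ_succ]
  have h0 : ∑ b : Fin (k + 1), v 0 * BM c H 0 b.succ * conj (v b.succ) = 0 := by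
    refine Finset.sum_eq_zero fun b _ => ?_
    have : BM c H 0 b.succ = 0 := rfl
    rw [this]
    ring
  rw [h0, add_zero]
  congr 1
  refine Finset.sum_congr rfl fun a _ => ?_
  rw [Fin.sum_univ_succ]
  have h1 : BM c H a.succ 0 = 0 := rfl
  rw [h1, mul_zero, zero_mul, zero_add]
  rfl

theorem herm_BM (r : ℝ) {H : Matrix (Fin (k + 1)) (Fin (k + 1)) ℂ} (hH : H.IsHermitian) :
    (BM (r : ℂ) H).IsHermitian := by
  refine Matrix.IsHermitian.ext fun a b => ?_
  refine Fin.cases ?_ (fun a' => ?_) a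
  · refine Fin.cases ?_ (fun b' => ?_) b
    · exact Complex.conj_ofReal r
    · exact star_zero ℂ
  · refine Fin.cases ?_ (fun b' => ?_) b
    · exact star_zero ℂ
    · exact hH.apply a' b'

/-- The map `u ↦ (u_b, δ u)`. -/
def Lm (b : Fin (k + 1)) (δ : ℝ) (u : Fin (k + 1) → ℂ) : Fin (k + 1 + 1) → ℂ :=
  Fin.cons (α := fun _ => ℂ) (u b) (fun i => (δ : ℂ) * u i)

/-- The polynomials. -/
def Lp (b : Fin (k + 1)) (δ : ℝ) : Fin (k + 1 + 1) → MvPolynomial (Fin (k + 1)) ℂ :=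
  Fin.cons (α := fun _ => MvPolynomial (Fin (k + 1)) ℂ) (MvPolynomial.X b)
    (fun i => MvPolynomial.C (δ : ℂ) * MvPolynomial.X i)

theorem ev_Lp (b : Fin (k + 1)) (δ : ℝ) (u : Fin (k + 1) → ℂ) : ev (Lp b δ) u = Lm b δ u := by
  funext i
  refine Fin.cases ?_ (fun i' => ?_) i
  · exact MvPolynomial.eval_X (f := u) b
  · change MvPolynomial.eval u (MvPolynomial.C (δ : ℂ) * MvPolynomial.X i') = (δ : ℂ) * u i'
    rw [map_mul, MvPolynomial.eval_C, MvPolynomial.eval_X]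

theorem jac_Lp (b : Fin (k + 1)) (δ : ℝ) (u a : Fin (k + 1) → ℂ) :
    (jac (Lp b δ) u).mulVec a = Lm b δ a := by
  funext i
  unfold Matrix.mulVec dotProduct
  refine Fin.cases ?_ (fun i' => ?_) i
  · change ∑ c, MvPolynomial.eval u (MvPolynomial.pderiv c (MvPolynomial.X b)) * a c = a b
    rw [Finset.sum_eq_single b]
    · rw [MvPolynomial.pderiv_X_self, map_one, one_mul]
    · intro c _ hc
      rw [MvPolynomial.pderiv_X_of_ne hc.symm, map_zero, zero_mul]
    · intro h; exact absurd (Finset.mem_univ _) h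
  · change ∑ c, MvPolynomial.eval u (MvPolynomial.pderiv c
      (MvPolynomial.C (δ : ℂ) * MvPolynomial.X i')) * a c = (δ : ℂ) * a i'
    rw [Finset.sum_eq_single i']
    · rw [MvPolynomial.pderiv_C_mul, MvPolynomial.pderiv_X_self, map_mul, map_one,
        MvPolynomial.eval_C, mul_one]
    · intro c _ hc
      rw [MvPolynomial.pderiv_C_mul, MvPolynomial.pderiv_X_of_ne hc.symm, mul_zero, map_zero,
        zero_mul]
    · intro h; exact absurd (Finset.mem_univ _) h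

theorem nsq_Lm (b : Fin (k + 1)) (δ : ℝ) (u : Fin (k + 1) → ℂ) :
    nsq (Lm b δ u) = ‖u b‖ ^ 2 + δ ^ 2 * nsq u := by
  unfold nsq
  rw [Fin.sum_univ_succ, Finset.mul_sum]
  congr 1
  refine Finset.sum_congr rfl fun i _ => ?_
  change ‖(δ : ℂ) * u i‖ ^ 2 = _
  rw [norm_mul, mul_pow, Complex.norm_real, Real.norm_eq_abs, sq_abs]

theorem inn_Lm (b : Fin (k + 1)) (δ : ℝ) (u w : Fin (k + 1) → ℂ) :
    ∑ i, Lm b δ u i * conj (Lm b δ w i) =
      u b * conj (w b) + (δ : ℂ) ^ 2 * ∑ i, u i * conj (w i) := by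
  rw [Fin.sum_univ_succ, Finset.mul_sum]
  congr 1
  refine Finset.sum_congr rfl fun i _ => ?_
  change (δ : ℂ) * u i * conj ((δ : ℂ) * w i) = _
  rw [map_mul, Complex.conj_ofReal]
  ring

theorem Lm_ne {b : Fin (k + 1)} {δ : ℝ} (hδ : 0 < δ) {u : Fin (k + 1) → ℂ} (hu : u ≠ 0) :
    Lm b δ u ≠ 0 := by
  intro h
  have h1 : nsq (Lm b δ u) = 0 := by
    rw [h]
    unfold nsq
    simp
  rw [nsq_Lm] at h1
  have h2 := nsq_po hu
  have : 0 < ‖u b‖ ^ 2 + δ ^ 2 * nsq u := by positivity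
  linarith

theorem wH_L (b : Fin (k + 1)) (δ : ℝ) (u : Fin (k + 1) → ℂ) :
    wH b δ u = ell (ev (Lp b δ) u) := by
  unfold wH ell
  rw [ev_Lp, nsq_Lm]

theorem wH_cd (h9 : T_W9) (b : Fin (k + 1)) {δ : ℝ} (hδ : 0 < δ) {u : Fin (k + 1) → ℂ}
    (hu : u ≠ 0) : ContDiffAt ℝ 2 (fun w : Fin (k + 1) → ℂ => (wH b δ w : ℂ)) u := by
  have h1 : ContDiffAt ℝ 2 (fun w : Fin (k + 1 + 1) → ℂ => (ell w : ℂ)) (ev (Lp b δ) u) := by
    rw [ev_Lp]
    exact ell_cd h9 (Lm_ne hδ hu)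
  have h2 : ContDiff ℝ 2 (fun w : Fin (k + 1) → ℂ => ev (Lp b δ) w) := by
    have : (fun w : Fin (k + 1) → ℂ => ev (Lp b δ) w) = fun w => Lm b δ w := by
      funext w; exact ev_Lp b δ w
    rw [this, contDiff_pi]
    intro i
    refine Fin.cases ?_ (fun i' => ?_) i
    · exact contDiff_apply ℝ ℂ b
    · exact contDiff_const.mul (contDiff_apply ℝ ℂ i')
  have h3 : (fun w : Fin (k + 1) → ℂ => (wH b δ w : ℂ)) =
      (fun w : Fin (k + 1 + 1) → ℂ => (ell w : ℂ)) ∘ (fun w => ev (Lp b δ) w) := by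
    funext w
    rw [Function.comp_apply, wH_L]
  rw [h3]
  exact h1.comp u h2.contDiffAt

theorem qf_wH (h4 : T_W4) (h9 : T_W9) (b : Fin (k + 1)) {δ : ℝ} (hδ : 0 < δ)
    {u : Fin (k + 1) → ℂ} (hu : u ≠ 0) (a : Fin (k + 1) → ℂ) :
    qf (hess (fun w : Fin (k + 1) → ℂ => (wH b δ w : ℂ)) u) a =
      (((1 / 2) * D2 (Lm b δ u) (Lm b δ a) : ℝ) : ℂ) := by
  have h1 : ContDiffAt ℝ 2 (fun w : Fin (k + 1 + 1) → ℂ => (ell w : ℂ)) (ev (Lp b δ) u) := by
    rw [ev_Lp]
    exact ell_cd h9 (Lm_ne hδ hu)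
  have h2 := qf_comp h4 (Lp b δ) (fun w : Fin (k + 1 + 1) → ℂ => (ell w : ℂ)) u h1 a
  rw [jac_Lp, ev_Lp, qf_ell h9 (Lm_ne hδ hu)] at h2
  rw [← h2]
  congr 2
  funext w
  rw [wH_L]

theorem herm_wH (h4 : T_W4) (h9 : T_W9) (b : Fin (k + 1)) {δ : ℝ} (hδ : 0 < δ)
    {u : Fin (k + 1) → ℂ} (hu : u ≠ 0) :
    (hess (fun w : Fin (k + 1) → ℂ => (wH b δ w : ℂ)) u).IsHermitian := by
  have h1 : ContDiffAt ℝ 2 (fun w : Fin (k + 1 + 1) → ℂ => (ell w : ℂ)) (ev (Lp b δ) u) := by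
    rw [ev_Lp]
    exact ell_cd h9 (Lm_ne hδ hu)
  have h2 := herm_comp h4 (Lp b δ) (fun w : Fin (k + 1 + 1) → ℂ => (ell w : ℂ)) u h1 (by
    rw [ev_Lp]
    exact herm_ell h9 (Lm_ne hδ hu))
  have h3 : (fun w : Fin (k + 1) → ℂ => (wH b δ w : ℂ)) =
      fun w => ((ell (ev (Lp b δ) w) : ℝ) : ℂ) := by
    funext w
    rw [wH_L]
  rw [h3]
  exact h2

/-! ### Matrices near the identity -/

theorem near {A : Matrix (Fin (k + 1)) (Fin (k + 1)) ℂ}
    (hA : ∀ a b, ‖A a b - (1 : Matrix (Fin (k + 1)) (Fin (k + 1)) ℂ) a b‖ ≤ th0 k)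
    (u : Fin (k + 1) → ℂ) :
    nsq (A.mulVec u) ≤ 4 * nsq u ∧ nsq u ≤ 3 * nsq (A.mulVec u) := by
  have hu := nsq_nn u
  have hN : (0 : ℝ) < (k : ℝ) + 1 := by positivity
  set E := A - 1 with hE
  have h1 : nsq (E.mulVec u) ≤ (1 / 64) * nsq u := by
    have h2 : ∀ a, ‖E.mulVec u a‖ ^ 2 ≤ (1 / (64 * ((k : ℝ) + 1))) * nsq u := by
      intro a
      have h3 : ‖E.mulVec u a‖ ≤ th0 k * ∑ b, ‖u b‖ := by
        unfold Matrix.mulVec dotProduct
        refine (norm_sum_le _ _).trans ?_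
        rw [Finset.mul_sum]
        refine Finset.sum_le_sum fun b _ => ?_
        rw [norm_mul]
        exact mul_le_mul_of_nonneg_right (hA a b) (norm_nonneg _)
      have h4 : (∑ b, ‖u b‖) ^ 2 ≤ ((k : ℝ) + 1) * nsq u := by
        have := sq_sum_le_card_mul_sum_sq (s := (Finset.univ : Finset (Fin (k + 1))))
          (f := fun b => ‖u b‖)
        rw [Finset.card_univ, Fintype.card_fin] at this
        push_cast at this
        exact this
      have h5 : ‖E.mulVec u a‖ ^ 2 ≤ (th0 k * ∑ b, ‖u b‖) ^ 2 :=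
        pow_le_pow_left₀ (norm_nonneg _) h3 2
      refine h5.trans ?_
      rw [mul_pow]
      have h6 : th0 k ^ 2 * (∑ b, ‖u b‖) ^ 2 ≤ th0 k ^ 2 * (((k : ℝ) + 1) * nsq u) :=
        mul_le_mul_of_nonneg_left h4 (by positivity)
      refine h6.trans (le_of_eq ?_)
      unfold th0
      field_simp
      ring
    have h7 : nsq (E.mulVec u) ≤ ∑ _a : Fin (k + 1), (1 / (64 * ((k : ℝ) + 1))) * nsq u :=
      Finset.sum_le_sum fun a _ => h2 a
    refine h7.trans (le_of_eq ?_)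
    rw [Finset.sum_const, Finset.card_univ, Fintype.card_fin, nsmul_eq_mul]
    push_cast
    field_simp
  have h8 : A.mulVec u = fun i => u i + E.mulVec u i := by
    funext i
    rw [hE, Matrix.sub_mulVec, Matrix.one_mulVec, Pi.sub_apply]
    ring
  have h9 : u = fun i => A.mulVec u i + (-1) * E.mulVec u i := by
    funext i
    rw [h8]
    ring
  constructor
  · rw [h8]
    have := nsq_add_le u (E.mulVec u)
    linarith
  · have h10 := nsq_add_le (A.mulVec u) (fun i => (-1) * E.mulVec u i)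
    rw [← h9, nsq_smul'] at h10
    have : ‖(-1 : ℂ)‖ ^ 2 = 1 := by simp
    rw [this] at h10
    linarith

/-! ### The row -/

/-- The polynomials of `x ↦ A Φ(x)`. -/
def AP (A : Matrix (Fin (k + 1)) (Fin (k + 1)) ℂ)
    (Φ : Fin (k + 1) → MvPolynomial (Fin (k + 1)) ℂ) :
    Fin (k + 1) → MvPolynomial (Fin (k + 1)) ℂ :=
  fun i => ∑ l, MvPolynomial.C (A i l) * Φ l

theorem ev_AP (A : Matrix (Fin (k + 1)) (Fin (k + 1)) ℂ)
    (Φ : Fin (k + 1) → MvPolynomial (Fin (k + 1)) ℂ) (x : Fin (k + 1) → ℂ) :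
    ev (AP A Φ) x = A.mulVec (ev Φ x) := by
  funext i
  unfold ev AP Matrix.mulVec dotProduct
  rw [map_sum]
  refine Finset.sum_congr rfl fun l _ => ?_
  rw [map_mul, MvPolynomial.eval_C]

theorem jac_AP (A : Matrix (Fin (k + 1)) (Fin (k + 1)) ℂ)
    (Φ : Fin (k + 1) → MvPolynomial (Fin (k + 1)) ℂ) (x v : Fin (k + 1) → ℂ) :
    (jac (AP A Φ) x).mulVec v = A.mulVec ((jac Φ x).mulVec v) := by
  rw [Matrix.mulVec_mulVec]
  congr 1
  ext i a
  unfold jac AP
  rw [Matrix.mul_apply, map_sum, map_sum]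
  refine Finset.sum_congr rfl fun l _ => ?_
  rw [MvPolynomial.pderiv_C_mul, map_mul, MvPolynomial.eval_C]

theorem jac_G (Φ : Fin (k + 1) → MvPolynomial (Fin (k + 1)) ℂ)
    (X : Fin (k + 1) → Fin (k + 1) → ℂ) (i j : Fin (k + 1)) (t : ℂ) (x : Fin (k + 1) → ℂ)
    (v : Fin (k + 1 + 1) → ℂ) :
    (jac (Pool.Agent.H14.EQ.GP Φ X i j) (ct t x)).mulVec v = fun l =>
      v 0 * (if l = i then ev Φ x j else 0) +
        (Matrix.of (rep X i j t)).mulVec ((jac Φ x).mulVec (tl v)) l := by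
  funext l
  have htl : tl (ct t x) = x := rfl
  have h0 : (ct t x : Fin (k + 1 + 1) → ℂ) 0 = t := rfl
  change ∑ a, jac (Pool.Agent.H14.EQ.GP Φ X i j) (ct t x) l a * v a = _
  rw [Fin.sum_univ_succ, Pool.Agent.H51.EHD.jac_GP0, htl]
  congr 1
  · ring
  · unfold Matrix.mulVec dotProduct
    have e : ∀ b : Fin (k + 1), jac (Pool.Agent.H14.EQ.GP Φ X i j) (ct t x) l b.succ * v b.succ =
        ∑ c, rep X i j t l c * (jac Φ x c b * v b.succ) := by
      intro b
      rw [Pool.Agent.H14.EQ.jac_GP, htl, h0, Finset.sum_mul]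
      exact Finset.sum_congr rfl fun c _ => by ring
    rw [Finset.sum_congr rfl fun b _ => e b, Finset.sum_comm]
    refine Finset.sum_congr rfl fun c _ => ?_
    rw [Finset.mul_sum]
    rfl

theorem pf_MRH (h4 : T_W4) (h9 : T_W9) : T_MRH := by
  intro k
  refine ⟨24, by norm_num, ?_⟩
  intro D Φ _ hΦ X i j b t δ x hX ht hδ hδ1 hx Y hY
  set A := Matrix.of (rep X i j t) with hA
  set y := ev Φ x with hy
  have hy0 : y ≠ 0 := fun h => hx (hΦ.nd x h)
  have hAn : ∀ a b, ‖A a b - (1 : Matrix (Fin (k + 1)) (Fin (k + 1)) ℂ) a b‖ ≤ th0 k := by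
    intro a b
    rw [hA, Matrix.of_apply, Pool.Agent.H14.EQ.rep_apply]
    split_ifs with h
    · rw [h.1, h.2]
      exact ht
    · exact hX a b
  have hnY := near hAn
  have hypos := nsq_po hy0
  have hY0 : Y ≠ 0 := by
    intro h
    have := (hnY y).2
    rw [← hY, h] at this
    have e : nsq (0 : Fin (k + 1) → ℂ) = 0 := by
      unfold nsq
      simp
    rw [e] at this
    linarith
  have hYpos := nsq_po hY0
  have hyY : nsq y ≤ 3 * nsq Y := by
    rw [hY]
    exact (hnY y).2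
  have hz : ev (Pool.Agent.H14.EQ.GP Φ X i j) (ct t x) = Y := by
    rw [Pool.Agent.H14.EQ.ev_GP', hY]
    rfl
  have hyj : ‖y j‖ ^ 2 ≤ nsq y := by
    unfold nsq
    exact Finset.single_le_sum (f := fun i => ‖y i‖ ^ 2) (fun i _ => by positivity)
      (Finset.mem_univ j)
  set V : Fin (k + 1) → ℂ := fun l => if l = i then y j else 0 with hV
  have hVn : nsq V = ‖y j‖ ^ 2 := by
    unfold nsq
    rw [Finset.sum_eq_single i]
    · simp [hV]
    · intro l _ hl
      simp [hV, hl]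
    · intro h; exact absurd (Finset.mem_univ _) h
  -- the forms in `x`
  have hAP0 : ev (AP A Φ) x ≠ 0 := by
    rw [ev_AP, ← hy, ← hY]
    exact hY0
  constructor
  · change ((24 : ℝ) : ℂ) • BM 1 (hessR (fun x => ell (ev Φ x)) x) -
      hessR (fun z => ell (ev (Pool.Agent.H14.EQ.GP Φ X i j) z)) (ct t x) |>.PosSemidef
    have hc1 : ContDiffAt ℝ 2 (fun w : Fin (k + 1) → ℂ => (ell w : ℂ))
        (ev (Pool.Agent.H14.EQ.GP Φ X i j) (ct t x)) := by
      rw [hz]; exact ell_cd h9 hY0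
    have hc2 : ContDiffAt ℝ 2 (fun w : Fin (k + 1) → ℂ => (ell w : ℂ)) (ev Φ x) :=
      ell_cd h9 hy0
    have hh1 : (hessR (fun z => ell (ev (Pool.Agent.H14.EQ.GP Φ X i j) z))
        (ct t x)).IsHermitian :=
      herm_comp h4 _ (fun w : Fin (k + 1) → ℂ => (ell w : ℂ)) _ hc1 (by
        rw [hz]; exact herm_ell h9 hY0)
    have hh2 : (hessR (fun x => ell (ev Φ x)) x).IsHermitian :=
      herm_comp h4 _ (fun w : Fin (k + 1) → ℂ => (ell w : ℂ)) _ hc2 (herm_ell h9 hy0)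
    refine psd_of ?_ ?_
    · refine Matrix.IsHermitian.sub ?_ hh1
      have := herm_BM 1 hh2
      rw [Complex.ofReal_one] at this
      refine Matrix.IsHermitian.ext fun a c => ?_
      rw [Matrix.smul_apply, Matrix.smul_apply, smul_eq_mul, smul_eq_mul, star_mul',
        this.apply a c, Complex.star_def, Complex.conj_ofReal]
    · intro v
      rw [qf_sub, qf_BM]
      have e1 : qf (hessR (fun z => ell (ev (Pool.Agent.H14.EQ.GP Φ X i j) z)) (ct t x)) v =
          (((1 / 2) * D2 Y (fun l => v 0 * V l + A.mulVec ((jac Φ x).mulVec (tl v)) l) : ℝ) :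
            ℂ) := by
        have := qf_comp h4 (Pool.Agent.H14.EQ.GP Φ X i j)
          (fun w : Fin (k + 1) → ℂ => (ell w : ℂ)) (ct t x) hc1 v
        rw [hz, qf_ell h9 hY0, jac_G] at this
        exact this
      have e2 : qf (hessR (fun x => ell (ev Φ x)) x) (tl v) =
          (((1 / 2) * D2 y ((jac Φ x).mulVec (tl v)) : ℝ) : ℂ) := by
        have := qf_comp h4 Φ (fun w : Fin (k + 1) → ℂ => (ell w : ℂ)) x hc2 (tl v)
        rw [qf_ell h9 hy0] at this
        exact this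
      rw [e1, e2]
      set ξ := (jac Φ x).mulVec (tl v) with hξ
      have h1 : D2 Y (fun l => v 0 * V l + A.mulVec ξ l) ≤
          2 * (‖v 0‖ ^ 2 * D2 Y V) + 2 * D2 Y (A.mulVec ξ) := by
        have := D2_add hY0 (fun l => v 0 * V l) (A.mulVec ξ)
        rw [D2_smul] at this
        exact this
      have h2 : D2 Y V ≤ 3 := by
        have := D2_le hY0 V 0
        have e : (fun i => V i - 0 * Y i) = V := by funext i; ring
        rw [e, hVn] at this
        refine this.trans ?_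
        rw [div_le_iff₀ hYpos]
        linarith
      have h3 : D2 Y (A.mulVec ξ) ≤ 12 * D2 y ξ := by
        obtain ⟨c, hc⟩ := D2_eq hy0 ξ
        have h5 := D2_le hY0 (A.mulVec ξ) c
        have e : (fun i => A.mulVec ξ i - c * Y i) = A.mulVec (fun i => ξ i - c * y i) := by
          have e' : (fun i => ξ i - c * y i) = ξ - c • y := by
            funext i; rfl
          rw [e', Matrix.mulVec_sub, Matrix.mulVec_smul, ← hY]
          rfl
        rw [e] at h5
        refine h5.trans ?_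
        rw [div_le_iff₀ hYpos]
        have h6 := (hnY (fun i => ξ i - c * y i)).1
        rw [hc] at h6
        have h7 := D2_nn hy0 ξ
        nlinarith
      have h4' := D2_nn hY0 V
      have h8 : 0 ≤ ‖v 0‖ ^ 2 := by positivity
      have h9' := D2_nn hy0 ξ
      have e3 : ((24 : ℝ) : ℂ) * (v 0 * 1 * conj (v 0) + (((1 / 2) * D2 y ξ : ℝ) : ℂ)) -
          (((1 / 2) * D2 Y (fun l => v 0 * V l + A.mulVec ξ l) : ℝ) : ℂ) =
          ((24 * (‖v 0‖ ^ 2 + (1 / 2) * D2 y ξ) -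
            (1 / 2) * D2 Y (fun l => v 0 * V l + A.mulVec ξ l) : ℝ) : ℂ) := by
        rw [mul_one, Complex.mul_conj, Complex.normSq_eq_norm_sq]
        push_cast
        ring
      rw [e3]
      have h10 : 0 ≤ 24 * (‖v 0‖ ^ 2 + (1 / 2) * D2 y ξ) -
            (1 / 2) * D2 Y (fun l => v 0 * V l + A.mulVec ξ l) := by
        nlinarith
      exact_mod_cast h10
  · set r : ℝ := 1 + (if i = b then δ ^ 2 * nsq Y * ‖y j‖ ^ 2 /
            (‖Y b‖ ^ 2 + δ ^ 2 * nsq Y) ^ 2 else 0) with hr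
    change ((24 : ℝ) : ℂ) • BM (r : ℂ) (hessR (fun x => wH b δ (A.mulVec (ev Φ x))) x) -
      hessR (fun z => wH b δ (ev (Pool.Agent.H14.EQ.GP Φ X i j) z)) (ct t x) |>.PosSemidef
    have hL0 := Lm_ne (b := b) hδ hY0
    have hLpos := nsq_po hL0
    have hc1 : ContDiffAt ℝ 2 (fun w : Fin (k + 1) → ℂ => (wH b δ w : ℂ))
        (ev (Pool.Agent.H14.EQ.GP Φ X i j) (ct t x)) := by
      rw [hz]; exact wH_cd h9 b hδ hY0
    have hc2 : ContDiffAt ℝ 2 (fun w : Fin (k + 1) → ℂ => (wH b δ w : ℂ))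
        (ev (AP A Φ) x) := wH_cd h9 b hδ hAP0
    have hf : (fun x => wH b δ (A.mulVec (ev Φ x))) = fun x => wH b δ (ev (AP A Φ) x) := by
      funext x
      rw [ev_AP]
    have hh1 : (hessR (fun z => wH b δ (ev (Pool.Agent.H14.EQ.GP Φ X i j) z))
        (ct t x)).IsHermitian :=
      herm_comp h4 _ (fun w : Fin (k + 1) → ℂ => (wH b δ w : ℂ)) _ hc1 (by
        rw [hz]; exact herm_wH h4 h9 b hδ hY0)
    have hh2 : (hessR (fun x => wH b δ (A.mulVec (ev Φ x))) x).IsHermitian := by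
      rw [hf]
      exact herm_comp h4 _ (fun w : Fin (k + 1) → ℂ => (wH b δ w : ℂ)) _ hc2
        (herm_wH h4 h9 b hδ hAP0)
    refine psd_of ?_ ?_
    · refine Matrix.IsHermitian.sub ?_ hh1
      have := herm_BM r hh2
      refine Matrix.IsHermitian.ext fun a c => ?_
      rw [Matrix.smul_apply, Matrix.smul_apply, smul_eq_mul, smul_eq_mul, star_mul',
        this.apply a c, Complex.star_def, Complex.conj_ofReal]
    · intro v
      rw [qf_sub, qf_BM]
      have e1 : qf (hessR (fun z => wH b δ (ev (Pool.Agent.H14.EQ.GP Φ X i j) z)) (ct t x)) v =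
          (((1 / 2) * D2 (Lm b δ Y) (Lm b δ
            (fun l => v 0 * V l + A.mulVec ((jac Φ x).mulVec (tl v)) l)) : ℝ) : ℂ) := by
        have := qf_comp h4 (Pool.Agent.H14.EQ.GP Φ X i j)
          (fun w : Fin (k + 1) → ℂ => (wH b δ w : ℂ)) (ct t x) hc1 v
        rw [hz, qf_wH h4 h9 b hδ hY0, jac_G] at this
        exact this
      have e2 : qf (hessR (fun x => wH b δ (A.mulVec (ev Φ x))) x) (tl v) =
          (((1 / 2) * D2 (Lm b δ Y) (Lm b δ (A.mulVec ((jac Φ x).mulVec (tl v)))) : ℝ) :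
            ℂ) := by
        have := qf_comp h4 (AP A Φ) (fun w : Fin (k + 1) → ℂ => (wH b δ w : ℂ)) x hc2 (tl v)
        rw [jac_AP, ev_AP, ← hy, ← hY, qf_wH h4 h9 b hδ hY0] at this
        rw [hf]
        exact this
      rw [e1, e2]
      set ξ := A.mulVec ((jac Φ x).mulVec (tl v)) with hξ
      have hLadd : Lm b δ (fun l => v 0 * V l + ξ l) =
          fun l => v 0 * Lm b δ V l + Lm b δ ξ l := by
        funext l
        refine Fin.cases ?_ (fun l' => ?_) l
        · rfl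
        · change (δ : ℂ) * (v 0 * V l' + ξ l') = v 0 * ((δ : ℂ) * V l') + (δ : ℂ) * ξ l'
          ring
      have h1 : D2 (Lm b δ Y) (Lm b δ (fun l => v 0 * V l + ξ l)) ≤
          2 * (‖v 0‖ ^ 2 * D2 (Lm b δ Y) (Lm b δ V)) + 2 * D2 (Lm b δ Y) (Lm b δ ξ) := by
        rw [hLadd]
        have := D2_add hL0 (fun l => v 0 * Lm b δ V l) (Lm b δ ξ)
        rw [D2_smul] at this
        exact this
      have h2 : D2 (Lm b δ Y) (Lm b δ V) ≤ 3 * r := by
        have hn : nsq (Lm b δ Y) = ‖Y b‖ ^ 2 + δ ^ 2 * nsq Y := nsq_Lm b δ Y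
        by_cases hib : i = b
        · rw [hr, if_pos hib]
          have e5 : V b = y j := by rw [hV]; simp [hib]
          have e6 : ∑ l, V l * conj (Y l) = y j * conj (Y b) := by
            rw [Finset.sum_eq_single b]
            · rw [e5]
            · intro l _ hl
              have : V l = 0 := by
                rw [hV]
                simp only
                rw [if_neg]
                rw [hib]
                exact hl
              rw [this, zero_mul]
            · intro h; exact absurd (Finset.mem_univ _) h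
          have e7 : ∑ l, Lm b δ V l * conj (Lm b δ Y l) =
              (((1 + δ ^ 2 : ℝ)) : ℂ) * (y j * conj (Y b)) := by
            rw [inn_Lm, e6, e5]
            push_cast
            ring
          have e8 : nsq (Lm b δ V) = (1 + δ ^ 2) * ‖y j‖ ^ 2 := by
            rw [nsq_Lm, e5, hVn]
            ring
          unfold D2
          rw [e7, e8, norm_mul, norm_mul, Complex.norm_conj, Complex.norm_real,
            Real.norm_of_nonneg (by positivity), hn]
          rw [hn] at hLpos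
          set n := ‖Y b‖ ^ 2 + δ ^ 2 * nsq Y with hnd
          have h5 : (1 + δ ^ 2) * ‖y j‖ ^ 2 / n -
              ((1 + δ ^ 2) * (‖y j‖ * ‖Y b‖)) ^ 2 / n ^ 2 =
              (1 + δ ^ 2) * ‖y j‖ ^ 2 * (n - (1 + δ ^ 2) * ‖Y b‖ ^ 2) / n ^ 2 := by
            field_simp
          rw [h5]
          have h6 : n - (1 + δ ^ 2) * ‖Y b‖ ^ 2 ≤ δ ^ 2 * nsq Y := by
            rw [hnd]
            have : 0 ≤ δ ^ 2 * ‖Y b‖ ^ 2 := by positivity
            linarith
          have h7 : 1 + δ ^ 2 ≤ 2 := by nlinarith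
          have h8 : (1 + δ ^ 2) * ‖y j‖ ^ 2 * (n - (1 + δ ^ 2) * ‖Y b‖ ^ 2) / n ^ 2 ≤
              2 * ‖y j‖ ^ 2 * (δ ^ 2 * nsq Y) / n ^ 2 := by
            refine div_le_div_of_nonneg_right ?_ (by positivity)
            have h9'' : (1 + δ ^ 2) * ‖y j‖ ^ 2 * (n - (1 + δ ^ 2) * ‖Y b‖ ^ 2) ≤
                (1 + δ ^ 2) * ‖y j‖ ^ 2 * (δ ^ 2 * nsq Y) :=
              mul_le_mul_of_nonneg_left h6 (by positivity)
            refine h9''.trans ?_
            have h10 : (1 + δ ^ 2) * ‖y j‖ ^ 2 ≤ 2 * ‖y j‖ ^ 2 :=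
              mul_le_mul_of_nonneg_right h7 (by positivity)
            exact mul_le_mul_of_nonneg_right h10 (by positivity)
          refine h8.trans ?_
          have h11 : 2 * ‖y j‖ ^ 2 * (δ ^ 2 * nsq Y) / n ^ 2 =
              2 * (δ ^ 2 * nsq Y * ‖y j‖ ^ 2 / n ^ 2) := by ring
          rw [h11]
          have h12 : 0 ≤ δ ^ 2 * nsq Y * ‖y j‖ ^ 2 / n ^ 2 := by positivity
          linarith
        · rw [hr, if_neg hib]
          have e5 : V b = 0 := by
            rw [hV]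
            simp only
            rw [if_neg (Ne.symm hib)]
          have := D2_le hL0 (Lm b δ V) 0
          have e : (fun i => Lm b δ V i - 0 * Lm b δ Y i) = Lm b δ V := by funext i; ring
          rw [e, nsq_Lm, e5, hVn, norm_zero, hn] at this
          refine this.trans ?_
          rw [hn] at hLpos
          rw [div_le_iff₀ hLpos]
          have h5 : 0 ≤ ‖Y b‖ ^ 2 := by positivity
          have h6 : 0 < δ ^ 2 := by positivity
          nlinarith
      have h3 := D2_nn hL0 (Lm b δ V)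
      have h8 : 0 ≤ ‖v 0‖ ^ 2 := by positivity
      have h5 := D2_nn hL0 (Lm b δ ξ)
      have h6 : 0 ≤ r := by linarith
      have e3 : ((24 : ℝ) : ℂ) * (v 0 * (r : ℂ) * conj (v 0) +
          (((1 / 2) * D2 (Lm b δ Y) (Lm b δ ξ) : ℝ) : ℂ)) -
          (((1 / 2) * D2 (Lm b δ Y) (Lm b δ (fun l => v 0 * V l + ξ l)) : ℝ) : ℂ) =
          ((24 * (r * ‖v 0‖ ^ 2 + (1 / 2) * D2 (Lm b δ Y) (Lm b δ ξ)) -
            (1 / 2) * D2 (Lm b δ Y) (Lm b δ (fun l => v 0 * V l + ξ l)) : ℝ) : ℂ) := by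
        have e4 : v 0 * (r : ℂ) * conj (v 0) = (r : ℂ) * (v 0 * conj (v 0)) := by ring
        rw [e4, Complex.mul_conj, Complex.normSq_eq_norm_sq]
        push_cast
        ring
      rw [e3]
      have h7 : ‖v 0‖ ^ 2 * D2 (Lm b δ Y) (Lm b δ V) ≤ ‖v 0‖ ^ 2 * (3 * r) :=
        mul_le_mul_of_nonneg_left h2 h8
      have h9' : 0 ≤ ‖v 0‖ ^ 2 * r := mul_nonneg h8 h6
      have h10 : 0 ≤ 24 * (r * ‖v 0‖ ^ 2 + (1 / 2) * D2 (Lm b δ Y) (Lm b δ ξ)) -
            (1 / 2) * D2 (Lm b δ Y) (Lm b δ (fun l => v 0 * V l + ξ l)) := by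
        linarith
      exact_mod_cast h10

end blk

end

end Pool.Agent.H56.EM
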